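import Pool.Agent.N229.PG.Stm
import Pool.Agent.N292.PK.Gev

/-! Project PG (helper229): flat Gevrey functions (helper954). -/

set_option autoImplicit false

namespace PG

open Complex Filter Topology Metric Set

/-- The Taylor-type estimate of a flat function. -/
lemma k954_flat_bound {α : ℝ} {f : ℂ → ℂ} (hf : DifferentiableOn ℂ f (ball 0 1)) {C : ℝ}
    (hC : ∀ n : ℕ, ∀ z ∈ ball (0 : ℂ) 1,
      ‖iteratedDeriv n f z‖ ≤ C ^ (n + 1) * (n.factorial : ℝ) ^ (1 + 1 / α))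
    {ζ : ℂ} (hζ : ‖ζ‖ = 1)
    (hlim : ∀ n : ℕ, Tendsto (iteratedDeriv n f) (𝓝[ball 0 1] ζ) (𝓝 0)) (n : ℕ) :
    ∀ m : ℕ, ∀ z ∈ ball (0 : ℂ) 1, ‖iteratedDeriv m f z‖ ≤
      (C ^ (n + m + 1) * ((n + m).factorial : ℝ) ^ (1 + 1 / α)) * ‖z - ζ‖ ^ n / n.factorial := by
  have hA : AnalyticOnNhd ℂ f (ball 0 1) := hf.analyticOnNhd isOpen_ball
  have hder : ∀ m : ℕ, ∀ z ∈ ball (0 : ℂ) 1,
      HasDerivAt (iteratedDeriv m f) (iteratedDeriv (m + 1) f z) z := by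
    intro m z hz
    rw [iteratedDeriv_succ]
    have h1 : AnalyticAt ℂ (iteratedDeriv m f) z := by
      rw [iteratedDeriv_eq_iterate]
      exact hA.iterated_deriv m z hz
    exact h1.differentiableAt.hasDerivAt
  induction n with
  | zero =>
    intro m z hz
    have := hC m z hz
    simpa using this
  | succ n ih =>
    intro m
    apply PK.taylor_step (hder m) hζ (hlim m) n
    intro z hz
    have h1 := ih (m + 1) z hz
    have e1 : n + (m + 1) = n + 1 + m := by ring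
    rw [e1] at h1
    exact h1

lemma k954_flat0 {α : ℝ} (hα : 0 < α) {f : ℂ → ℂ} (hf : DifferentiableOn ℂ f (ball 0 1)) {C : ℝ}
    (hC1 : 1 ≤ C)
    (hC : ∀ n : ℕ, ∀ z ∈ ball (0 : ℂ) 1,
      ‖iteratedDeriv n f z‖ ≤ C ^ (n + 1) * (n.factorial : ℝ) ^ (1 + 1 / α))
    {ζ : ℂ} (hζ : ‖ζ‖ = 1)
    (hlim : ∀ n : ℕ, Tendsto (iteratedDeriv n f) (𝓝[ball 0 1] ζ) (𝓝 0)) (n : ℕ) {z : ℂ}
    (hz : z ∈ ball (0 : ℂ) 1) : ‖f z‖ ≤ C * (C * (n : ℝ) ^ (1 / α) * ‖z - ζ‖) ^ n := by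
  have h1 := k954_flat_bound hf hC hζ hlim n 0 z hz
  rw [iteratedDeriv_zero] at h1
  simp only [Nat.add_zero] at h1
  refine h1.trans ?_
  have hn : (0 : ℝ) < n.factorial := by exact_mod_cast Nat.factorial_pos n
  have h2 : (n.factorial : ℝ) ≤ (n : ℝ) ^ n := by exact_mod_cast Nat.factorial_le_pow n
  have h3 : C ^ (n + 1) * (n.factorial : ℝ) ^ (1 + 1 / α) * ‖z - ζ‖ ^ n / n.factorial =
      C ^ (n + 1) * (n.factorial : ℝ) ^ (1 / α) * ‖z - ζ‖ ^ n := by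
    rw [Real.rpow_add hn, Real.rpow_one]
    field_simp
  rw [h3]
  have h4 : (n.factorial : ℝ) ^ (1 / α) ≤ ((n : ℝ) ^ (1 / α)) ^ n := by
    rw [Real.rpow_pow_comm (Nat.cast_nonneg n)]
    exact Real.rpow_le_rpow hn.le h2 (by positivity)
  have hC0 : 0 ≤ C := by linarith
  calc C ^ (n + 1) * (n.factorial : ℝ) ^ (1 / α) * ‖z - ζ‖ ^ n
      ≤ C ^ (n + 1) * ((n : ℝ) ^ (1 / α)) ^ n * ‖z - ζ‖ ^ n := by gcongr
    _ = C * (C * (n : ℝ) ^ (1 / α) * ‖z - ζ‖) ^ n := by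
      rw [mul_pow, mul_pow]; ring

lemma k954_flat_log {α : ℝ} (hα : 0 < α) {f : ℂ → ℂ} (hf : DifferentiableOn ℂ f (ball 0 1))
    {C : ℝ} (hC1 : 1 ≤ C)
    (hC : ∀ n : ℕ, ∀ z ∈ ball (0 : ℂ) 1,
      ‖iteratedDeriv n f z‖ ≤ C ^ (n + 1) * (n.factorial : ℝ) ^ (1 + 1 / α))
    {ζ : ℂ} (hζ : ‖ζ‖ = 1)
    (hlim : ∀ n : ℕ, Tendsto (iteratedDeriv n f) (𝓝[ball 0 1] ζ) (𝓝 0)) {z : ℂ}
    (hz : z ∈ ball (0 : ℂ) 1) (hfz : f z ≠ 0) {d : ℝ} (hd : 0 < d) (hzd : ‖z - ζ‖ ≤ d) :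
    Real.log ‖f z‖ ≤ (Real.log C + 1) - (Real.exp 1 * C) ^ (-α) * d ^ (-α) := by
  have hC0 : 0 < C := by linarith
  have he : 0 < Real.exp 1 := Real.exp_pos 1
  set x : ℝ := (Real.exp 1 * C * d) ^ (-α) with hx
  have hx0 : 0 ≤ x := by positivity
  have hxe : (Real.exp 1 * C) ^ (-α) * d ^ (-α) = x := by
    rw [hx, Real.mul_rpow (by positivity) hd.le]
  rw [hxe]
  set n := ⌊x⌋₊ with hn
  have h1 : (n : ℝ) ≤ x := Nat.floor_le hx0
  have h2 : x < (n : ℝ) + 1 := Nat.lt_floor_add_one x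
  have h3 : (n : ℝ) ^ (1 / α) ≤ 1 / (Real.exp 1 * C * d) := by
    have h31 : (n : ℝ) ^ (1 / α) ≤ x ^ (1 / α) :=
      Real.rpow_le_rpow (Nat.cast_nonneg n) h1 (by positivity)
    refine h31.trans (le_of_eq ?_)
    rw [hx, ← Real.rpow_mul (by positivity)]
    have e1 : -α * (1 / α) = -1 := by field_simp
    rw [e1, Real.rpow_neg_one, one_div]
  have h4 : C * (n : ℝ) ^ (1 / α) * ‖z - ζ‖ ≤ Real.exp (-1) := by
    calc C * (n : ℝ) ^ (1 / α) * ‖z - ζ‖ ≤ C * (1 / (Real.exp 1 * C * d)) * d := by gcongr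
      _ = Real.exp (-1) := by
        rw [Real.exp_neg]
        field_simp
  have h5 := k954_flat0 hα hf hC1 hC hζ hlim n hz
  have h6 : ‖f z‖ ≤ C * Real.exp (-1) ^ n := by
    refine h5.trans ?_
    gcongr
  have h7 : Real.log ‖f z‖ ≤ Real.log (C * Real.exp (-1) ^ n) :=
    Real.log_le_log (norm_pos_iff.mpr hfz) h6
  rw [Real.log_mul hC0.ne' (by positivity), Real.log_pow, Real.log_exp] at h7
  linarith

theorem leaf_G : StmG := by
  intro α hα hα1 f hf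
  obtain ⟨hd, C', hC'⟩ := hf
  set C : ℝ := |C'| + 1 with hCdef
  have hC1 : 1 ≤ C := by rw [hCdef]; linarith [abs_nonneg C']
  have hC : ∀ n : ℕ, ∀ z ∈ ball (0 : ℂ) 1,
      ‖iteratedDeriv n f z‖ ≤ C ^ (n + 1) * (n.factorial : ℝ) ^ (1 + 1 / α) := by
    intro n z hz
    refine (hC' n z hz).trans ?_
    have h1 : C' ^ (n + 1) ≤ C ^ (n + 1) := by
      calc C' ^ (n + 1) ≤ |C' ^ (n + 1)| := le_abs_self _
        _ = |C'| ^ (n + 1) := abs_pow _ _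
        _ ≤ C ^ (n + 1) := by
          apply pow_le_pow_left₀ (abs_nonneg _)
          rw [hCdef]; linarith
    gcongr
  refine ⟨Real.log C + 1, (Real.exp 1 * C) ^ (-α), by positivity, ?_, ?_⟩
  · intro z hz hfz
    have h1 := hC 0 z hz
    rw [iteratedDeriv_zero] at h1
    simp only [Nat.factorial_zero, Nat.cast_one, Real.one_rpow, zero_add, pow_one, mul_one] at h1
    have h2 := Real.log_le_log (norm_pos_iff.mpr hfz) h1
    linarith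
  · intro ζ hζ hlim z hz hfz d hd0 hzd
    exact k954_flat_log hα hd hC1 hC hζ hlim hz hfz hd0 hzd

end PG
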